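import Pool.Agent.W381.QG.Final

/-!
# A closed subgroup `G ⊂ U_N⁺` with dual of exponential growth and trivial diagonal tori

`C(G)` is the full group C*-algebra of a subgroup `Λ ⊂ GL₅(ℤ)` generated by `A₅` and elementary
matrices, with the comultiplication twisted by a 2-cocycle on a Klein four-group `V ⊂ A₅`.
-/

namespace Pool.Agent.Results.MP_75cd78_al.TrivialToriGrowth

open Pool.Agent.W381.QG

/-- There are `N` and a closed subgroup `G ⊂ U_N⁺` (with `C(G)` the full C*-algebra) such that
`b_k ≥ 2^k` for all `k`, so that the discrete dual of `G` does not have polynomial growth, while for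
every `Q ∈ U_N` the group `Γ_Q` is trivial, so that it has polynomial growth. -/
theorem result : ∃ (N : ℕ) (G : ClosedSubgroup N), G.IsFull ∧
    (∀ k : ℕ, (2 : ℕ∞) ^ k ≤ G.b k) ∧ ¬ G.DualPolynomialGrowth ∧
    ∀ Q ∈ Matrix.unitaryGroup (Fin N) ℂ, G.TorusTrivial Q ∧ G.TorusPolynomialGrowth Q :=
  ⟨NN, GG, isFull, two_pow_le_b, not_dualPolynomialGrowth,
    fun _ hQ => ⟨torus_eq_bot hQ, torus_poly hQ⟩⟩

end Pool.Agent.Results.MP_75cd78_al.TrivialToriGrowth
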